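import Mathlib
import Pool.Agent.H71.EQ.Targets

set_option autoImplicit false

open Pool.Agent.H71.EQ

namespace Pool.Agent.H32.EQR

/-- periodic predicates depend on the residues only -/
theorem per_congr {k : ℕ} {m : ℕ} {A : (Fin k → ℤ) → Prop}
    (hA : ∀ v u : Fin k → ℤ, A (fun i => v i + (m : ℤ) * u i) ↔ A v)
    {v w : Fin k → ℤ} (h : ∀ i, (m : ℤ) ∣ v i - w i) : A v ↔ A w := by
  choose u hu using h
  have hv : v = fun i => w i + (m : ℤ) * u i := by
    funext i
    have := hu i
    linarith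
  rw [hv]
  exact hA w u

/-- the residue of the residue -/
theorem val_dvd {m x : ℕ} : (m : ℤ) ∣ ((((x : ℕ) : ZMod m).val : ℕ) : ℤ) - (x : ℤ) := by
  rw [ZMod.val_natCast]
  have h : ((x % m : ℕ) : ℤ) - (x : ℤ) = -((m : ℤ) * ((x / m : ℕ) : ℤ)) := by
    have h2 := Nat.mod_add_div x m
    have h3 : ((x % m : ℕ) : ℤ) + (m : ℤ) * ((x / m : ℕ) : ℤ) = (x : ℤ) := by exact_mod_cast h2
    linarith
  rw [h]
  exact (dvd_neg).2 (dvd_mul_right _ _)

/-- the Chinese remainder theorem for counting -/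
theorem crt_card {k m n : ℕ} (hm : m ≠ 0) (hn : n ≠ 0) (hc : m.Coprime n)
    {A B : (Fin k → ℤ) → Prop}
    (hA : ∀ v u : Fin k → ℤ, A (fun i => v i + (m : ℤ) * u i) ↔ A v)
    (hB : ∀ v u : Fin k → ℤ, B (fun i => v i + (n : ℤ) * u i) ↔ B v) :
    {v : Fin k → ZMod (m * n) | A (fun i => ((v i).val : ℤ)) ∧
      B (fun i => ((v i).val : ℤ))}.ncard =
    {v : Fin k → ZMod m | A (fun i => ((v i).val : ℤ))}.ncard *
    {v : Fin k → ZMod n | B (fun i => ((v i).val : ℤ))}.ncard := by
  classical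
  haveI : NeZero m := ⟨hm⟩
  haveI : NeZero n := ⟨hn⟩
  haveI : NeZero (m * n) := ⟨mul_ne_zero hm hn⟩
  have e : ZMod (m * n) ≃+* ZMod m × ZMod n := ZMod.chineseRemainder hc
  have h1 : ∀ x : ZMod (m * n), (e x).1 = ((x.val : ℕ) : ZMod m) := fun x => by
    conv_lhs => rw [← ZMod.natCast_zmod_val x]
    rw [map_natCast]
    rfl
  have h2 : ∀ x : ZMod (m * n), (e x).2 = ((x.val : ℕ) : ZMod n) := fun x => by
    conv_lhs => rw [← ZMod.natCast_zmod_val x]
    rw [map_natCast]
    rfl
  let Φ : (Fin k → ZMod (m * n)) ≃ (Fin k → ZMod m) × (Fin k → ZMod n) :=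
    { toFun := fun v => (fun i => (e (v i)).1, fun i => (e (v i)).2)
      invFun := fun w => fun i => e.symm (w.1 i, w.2 i)
      left_inv := fun v => by
        funext i
        simp
      right_inv := fun w => by
        ext i <;> simp }
  rw [← Set.ncard_prod, ← Set.ncard_image_of_injective _ Φ.injective]
  congr 1
  ext w
  constructor
  · rintro ⟨v, ⟨hv1, hv2⟩, rfl⟩
    refine ⟨?_, ?_⟩
    · show A (fun i => (((e (v i)).1.val : ℕ) : ℤ))
      refine (per_congr hA fun i => ?_).2 hv1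
      rw [h1]
      exact val_dvd
    · show B (fun i => (((e (v i)).2.val : ℕ) : ℤ))
      refine (per_congr hB fun i => ?_).2 hv2
      rw [h2]
      exact val_dvd
  · rintro ⟨hw1, hw2⟩
    refine ⟨Φ.symm w, ⟨?_, ?_⟩, Φ.apply_symm_apply w⟩
    · have h3 : ∀ i, w.1 i = (((Φ.symm w i).val : ℕ) : ZMod m) := fun i => by
        rw [← h1]
        show w.1 i = (e (e.symm (w.1 i, w.2 i))).1
        rw [RingEquiv.apply_symm_apply]
      refine (per_congr hA fun i => ?_).1 hw1
      rw [h3]
      exact val_dvd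
    · have h3 : ∀ i, w.2 i = (((Φ.symm w i).val : ℕ) : ZMod n) := fun i => by
        rw [← h2]
        show w.2 i = (e (e.symm (w.1 i, w.2 i))).2
        rw [RingEquiv.apply_symm_apply]
      refine (per_congr hB fun i => ?_).1 hw2
      rw [h3]
      exact val_dvd

theorem main (h1 : T_LOC) (h2 : T_PER) (k : ℕ) (hk : 1 ≤ k) (e : ℕ → ℕ) :
    ∀ S : Finset ℕ, (∀ p ∈ S, p.Prime) → ∀ W : ℕ, W = ∏ p ∈ S, p ^ (e p + 2) →
    ({v : Fin k → ZMod W | ∀ p ∈ S, Loc p (e p) (ext fun i => ((v i).val : ℤ))}.ncard : ℝ) =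
      (∏ p ∈ S, wloc (k + 1) p (e p)) * (W : ℝ) ^ k := by
  classical
  intro S
  induction S using Finset.induction_on with
  | empty =>
    intro _ W hW
    rw [Finset.prod_empty] at hW
    subst hW
    have h : {v : Fin k → ZMod 1 | ∀ p ∈ (∅ : Finset ℕ),
        Loc p (e p) (ext fun i => ((v i).val : ℤ))} = Set.univ := by
      ext v
      simp
    rw [h, Set.ncard_univ]
    simp
  | @insert q S hq ih =>
    intro hS W hW
    rw [Finset.prod_insert hq] at hW
    have hqp : q.Prime := hS q (Finset.mem_insert_self q S)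
    have hS' : ∀ p ∈ S, p.Prime := fun p hp => hS p (Finset.mem_insert_of_mem hp)
    have hco : (q ^ (e q + 2)).Coprime (∏ p ∈ S, p ^ (e p + 2)) := by
      refine Nat.Coprime.prod_right fun p hp => ?_
      refine Nat.Coprime.pow _ _ ?_
      refine (Nat.coprime_primes hqp (hS' p hp)).2 ?_
      rintro rfl
      exact hq hp
    have hm : q ^ (e q + 2) ≠ 0 := pow_ne_zero _ hqp.ne_zero
    have hn : (∏ p ∈ S, p ^ (e p + 2)) ≠ 0 :=
      Finset.prod_ne_zero_iff.2 fun p hp => pow_ne_zero _ (hS' p hp).ne_zero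
    subst hW
    have h3 := crt_card (k := k) hm hn hco
      (A := fun v => Loc q (e q) (ext v)) (B := fun v => ∀ p ∈ S, Loc p (e p) (ext v))
      (fun v u => by
        have := h2 k q (e q) v u
        push_cast
        exact this)
      (fun v u => by
        refine forall₂_congr fun p hp => ?_
        obtain ⟨c, hc⟩ := Finset.dvd_prod_of_mem (fun p => p ^ (e p + 2)) hp
        have := h2 k p (e p) v (fun i => (c : ℤ) * u i)
        rw [hc]
        push_cast
        have h4 : (fun i => v i + (p : ℤ) ^ (e p + 2) * (c : ℤ) * u i) =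
            fun i => v i + (p : ℤ) ^ (e p + 2) * ((c : ℤ) * u i) := by
          funext i
          ring
        rw [h4]
        exact this)
    have h5 : {v : Fin k → ZMod (q ^ (e q + 2) * ∏ p ∈ S, p ^ (e p + 2)) |
        ∀ p ∈ insert q S, Loc p (e p) (ext fun i => ((v i).val : ℤ))} =
        {v : Fin k → ZMod (q ^ (e q + 2) * ∏ p ∈ S, p ^ (e p + 2)) |
        Loc q (e q) (ext fun i => ((v i).val : ℤ)) ∧
        ∀ p ∈ S, Loc p (e p) (ext fun i => ((v i).val : ℤ))} := by
      ext v
      simp only [Set.mem_setOf_eq, Finset.mem_insert, forall_eq_or_imp]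
    rw [h5, h3, Nat.cast_mul, h1 k q (e q) hk hqp, ih hS' _ rfl, Finset.prod_insert hq]
    push_cast
    ring

theorem pf_CRM (h1 : T_LOC) (h2 : T_PER) : T_CRM := by
  intro k E z hk hE
  have h := main h1 h2 k hk (fun p => E.factorization p)
    ((Finset.range (z + 1)).filter Nat.Prime)
    (fun p hp => (Finset.mem_filter.1 hp).2) (md E z) rfl
  rw [show wz (k + 1) E z = ∏ p ∈ (Finset.range (z + 1)).filter Nat.Prime,
    wloc (k + 1) p (E.factorization p) from rfl, ← h]
  congr 2
  ext v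
  constructor
  · intro hv p hp
    rw [Finset.mem_filter, Finset.mem_range] at hp
    exact hv p hp.2 (by omega)
  · intro hv p hp hpz
    exact hv p (Finset.mem_filter.2 ⟨Finset.mem_range.2 (by omega), hp⟩)

end Pool.Agent.H32.EQR
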